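import Pool.Agent.Run7.h689.Fin
set_option autoImplicit false

namespace Pool.Agent.Results.MP_4d246d_lc.FewAuxiliaryObjectives

open Set Pool.Agent.Run7.h689.SH

/-- the value of the linear function with coefficients `c` at `x` -/
def val {n : ℕ} (c x : Fin n → ℝ) : ℝ := ∑ j, c j * x j

/-- the feasible region of the linear program `A x ≤ b`, `x ≥ 0` -/
def feasible {k n : ℕ} (A : Fin k → Fin n → ℤ) (b : Fin k → ℤ) : Set (Fin n → ℝ) :=
  {x | (∀ j, 0 ≤ x j) ∧ ∀ i, ∑ j, (A i j : ℝ) * x j ≤ b i}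

/-- The step from `x` to `y` is a shadow vertex pivot for the objective `c` and the auxiliary
objective `z`: it increases `c`, and the segment from `x` to `y` is the set of all points of `P`
at which some linear function `z - σ c` is maximal over `P`. So `x` and `y` are the ends of an
edge of `P` that is seen as an edge of the projection of `P` to the plane by `(c, z)`. -/
def ShadowPivot {n : ℕ} (P : Set (Fin n → ℝ)) (c z x y : Fin n → ℝ) : Prop :=
  val c x < val c y ∧
    ∃ σ : ℝ, {u | u ∈ P ∧ ∀ w ∈ P, val z w - σ * val c w ≤ val z u - σ * val c u} = segment ℝ x y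

/-- the linear function with given coefficients -/
noncomputable def lin {n : ℕ} (z : Fin n → ℝ) : (Fin n → ℝ) →ₗ[ℝ] ℝ := ∑ j, z j • LinearMap.proj j

theorem lin_eq {n : ℕ} (z x : Fin n → ℝ) : lin z x = val z x := by
  simp [lin, val, LinearMap.sum_apply]

theorem main (r m : ℕ) (hm : 1 ≤ m) :
    ∃ (A : Fin (3 * ((r + 1) * (m + 1))) → Fin ((r + 1) * (m + 1)) → ℤ)
      (b : Fin (3 * ((r + 1) * (m + 1))) → ℤ) (c : Fin ((r + 1) * (m + 1)) → ℤ)
      (v t : Fin ((r + 1) * (m + 1)) → ℝ),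
      (∀ i j, |A i j| ≤ 2 ^ (6 * m + 10)) ∧ (∀ i, |b i| ≤ (r + 1) * 2 ^ (6 * m + 10)) ∧
      (∀ j, |c j| ≤ 2 ^ ((4 * m + 8) * (r + 1))) ∧
      (∀ x ∈ feasible A b, ∀ j, x j ≤ 1) ∧
      v ∈ (feasible A b).extremePoints ℝ ∧
      t ∈ feasible A b ∧
      (∀ x ∈ feasible A b, x ≠ t → val (fun j => (c j : ℝ)) x < val (fun j => (c j : ℝ)) t) ∧
      ∀ Z : Finset (Fin ((r + 1) * (m + 1)) → ℝ), Z.card ≤ r + 1 →
        ∀ (T : ℕ) (x : ℕ → Fin ((r + 1) * (m + 1)) → ℝ), x 0 = v →
          (∀ s < T, ∃ z ∈ Z,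
            ShadowPivot (feasible A b) (fun j => (c j : ℝ)) z (x s) (x (s + 1))) →
          (∀ y ∈ feasible A b, val (fun j => (c j : ℝ)) y ≤ val (fun j => (c j : ℝ)) (x T)) →
          2 ^ m - 2 ≤ T := by
  classical
  -- the integral data
  choose A' hA' using fun ρ : Fin (r + 1) × (Fin (m + 1) × Fin 3) => dy_co (r := r) m ρ
  choose b' hb' using fun ρ : Fin (r + 1) × (Fin (m + 1) × Fin 3) => dy_rh (r := r) m ρ
  choose c' hc' using fun j : Fin (r + 1) × Fin (m + 1) => dy_ob (r := r) m j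
  set n := (r + 1) * (m + 1) with hn
  let eV : Fin (r + 1) × Fin (m + 1) ≃ Fin n := finProdFinEquiv
  have hcard : Fintype.card (Fin (r + 1) × (Fin (m + 1) × Fin 3)) = 3 * n := by
    simp only [Fintype.card_prod, Fintype.card_fin, hn]
    ring
  let eR : Fin (r + 1) × (Fin (m + 1) × Fin 3) ≃ Fin (3 * n) := Fintype.equivFinOfCardEq hcard
  let L : (Fin (r + 1) → Fin (m + 1) → ℝ) ≃ₗ[ℝ] (Fin n → ℝ) :=
    (LinearEquiv.curry ℝ ℝ (Fin (r + 1)) (Fin (m + 1))).symm.trans
      (LinearEquiv.funCongrLeft ℝ ℝ eV.symm)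
  have hL : ∀ (x : Fin (r + 1) → Fin (m + 1) → ℝ) (j : Fin n),
      L x j = x (eV.symm j).1 (eV.symm j).2 := fun x j => rfl
  set A : Fin (3 * n) → Fin n → ℤ := fun i j => A' (eR.symm i) (eV.symm j) with hA
  set b : Fin (3 * n) → ℤ := fun i => b' (eR.symm i) with hb
  set c : Fin n → ℤ := fun j => c' (eV.symm j) with hc
  have hD : (0 : ℝ) < 2 ^ (6 * m + 8) := by positivity
  set K : ℝ := 2 ^ ((4 * m + 8) * r + 2 * m) with hK
  have hK0 : 0 < K := by positivity
  -- the feasible region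
  have hfe : feasible A b = L '' PS r m := by
    ext x
    obtain ⟨w, rfl⟩ := L.surjective x
    have e1 : L w ∈ L '' PS r m ↔ w ∈ PS r m := by
      constructor
      · rintro ⟨w', h, he⟩
        rwa [← L.injective he]
      · exact fun h => ⟨w, h, rfl⟩
    rw [e1, PS_iff]
    have e2 : ∀ ρ : Fin (r + 1) × (Fin (m + 1) × Fin 3),
        (∑ j : Fin n, (A (eR ρ) j : ℝ) * L w j ≤ b (eR ρ)) ↔
        ∑ j : Fin (r + 1) × Fin (m + 1), co m ρ j * w j.1 j.2 ≤ rh m ρ := by
      intro ρ
      have e3 : ∑ j : Fin n, (A (eR ρ) j : ℝ) * L w j =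
          2 ^ (6 * m + 8) * ∑ j : Fin (r + 1) × Fin (m + 1), co m ρ j * w j.1 j.2 := by
        rw [Finset.mul_sum, ← Equiv.sum_comp eV]
        apply Finset.sum_congr rfl
        intro j _
        rw [hL]
        simp only [hA, Equiv.symm_apply_apply]
        rw [hA']
        ring
      rw [e3]
      simp only [hb, Equiv.symm_apply_apply]
      rw [hb']
      exact mul_le_mul_iff_of_pos_left hD
    constructor
    · rintro ⟨h1, h2⟩
      refine ⟨fun i k => ?_, fun ρ => (e2 ρ).1 (h2 _)⟩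
      have := h1 (eV (i, k))
      rw [hL, Equiv.symm_apply_apply] at this
      exact this
    · rintro ⟨h1, h2⟩
      refine ⟨fun j => ?_, fun i => ?_⟩
      · rw [hL]
        exact h1 _ _
      · have := (e2 (eR.symm i)).2 (h2 _)
        rwa [Equiv.apply_symm_apply] at this
  -- the objective
  have hob : ∀ x : Fin n → ℝ, val (fun j => (c j : ℝ)) x = K * (CC r m ∘ₗ L.symm.toLinearMap) x := by
    intro x
    obtain ⟨w, rfl⟩ := L.surjective x
    have e1 : (CC r m ∘ₗ L.symm.toLinearMap) (L w) = CC r m w := by simp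
    rw [e1, CC_eq, Finset.mul_sum]
    unfold val
    rw [← Equiv.sum_comp eV]
    apply Finset.sum_congr rfl
    intro j _
    rw [hL]
    simp only [hc, Equiv.symm_apply_apply]
    rw [hc']
    ring
  have hH := (hard hm r).map L
  rw [← hfe] at hH
  set C := CC r m ∘ₗ L.symm.toLinearMap with hC
  refine ⟨A, b, c, L (st m r), L fun _ => tp m, ?_, ?_, ?_, ?_, hH.vext, hH.ht, ?_, ?_⟩
  · intro i j
    refine abs_int (hA' _ _) (co_abs m _ _) ?_
    push_cast
    have : (2 : ℝ) ^ (6 * m + 10) = 2 ^ (6 * m + 8) * 4 := by ring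
    rw [this]
  · intro i
    refine abs_int (hb' _) (rh_abs m _) ?_
    push_cast
    have : (2 : ℝ) ^ (6 * m + 10) = 2 ^ (6 * m + 8) * 4 := by ring
    rw [this]
    exact le_of_eq (by ring)
  · intro j
    refine abs_int (hc' _) (ob_abs m _) ?_
    push_cast
    have : (2 : ℝ) ^ ((4 * m + 8) * r + 2 * m) * 2 = 2 ^ ((4 * m + 8) * r + 2 * m + 1) := by ring
    rw [this]
    apply pow_le_pow_right₀ (by norm_num)
    have : (4 * m + 8) * (r + 1) = (4 * m + 8) * r + (4 * m + 8) := by ring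
    omega
  · intro x hx j
    rw [hfe] at hx
    obtain ⟨w, hw, rfl⟩ := hx
    rw [hL]
    exact (PS_Icc m r w hw _ _).2
  · intro x hx hne
    rw [hob, hob]
    apply mul_lt_mul_of_pos_left _ hK0
    rcases (hH.top x hx).lt_or_eq with h | h
    · exact h
    · exact absurd (hH.uniq x hx h) hne
  · intro Z hZ T x h0 hstep hopt
    -- every step is a step
    choose ζ hζ hζ2 using hstep
    set z : ℕ → ((Fin n → ℝ) →ₗ[ℝ] ℝ) := fun s => if h : s < T then lin (ζ s h) else 0 with hz
    have hpath : Path (feasible A b) C T x z := by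
      intro s hs
      obtain ⟨h1, σ, h2⟩ := hζ2 s hs
      rw [hob, hob] at h1
      refine ⟨lt_of_mul_lt_mul_left h1 hK0.le, σ * K, ?_⟩
      rw [← h2]
      have e : ∀ u, (z s - (σ * K) • C) u = val (ζ s hs) u - σ * val (fun j => (c j : ℝ)) u := by
        intro u
        simp only [hz, hs, dif_pos, LinearMap.sub_apply, LinearMap.smul_apply, smul_eq_mul]
        rw [lin_eq, hob]
        ring
      unfold mx
      simp only [e]
    have hxT : x T = L fun _ => tp m := by
      have hmem : x T ∈ feasible A b := by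
        rcases Nat.eq_zero_or_pos T with h | h
        · rw [h, h0]; exact hH.hv
        · obtain ⟨-, σ, h2⟩ := hpath (T - 1) (by omega)
          have := right_mem_mx h2
          rw [Nat.sub_add_cancel h] at this
          exact this.1
      apply hH.uniq _ hmem
      apply le_antisymm (hH.top _ hmem)
      have := hopt _ hH.ht
      rw [hob, hob] at this
      exact le_of_mul_le_mul_left this hK0
    rcases hH.long T x z h0 hxT hpath with h | h
    · exact h
    · exfalso
      have hsub : z '' Iio T ⊆ ((Z.image lin : Finset _) : Set ((Fin n → ℝ) →ₗ[ℝ] ℝ)) := by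
        rintro _ ⟨s, hs, rfl⟩
        have hs' : s < T := hs
        simp only [hz, hs', dif_pos, Finset.coe_image]
        exact ⟨_, hζ s hs', rfl⟩
      have h1 : (z '' Iio T).ncard ≤ (Z.image lin).card := by
        rw [← ncard_coe_finset]
        exact ncard_le_ncard hsub (Finset.finite_toSet _)
      have h2 : (Z.image lin).card ≤ Z.card := Finset.card_image_le
      omega

/-- **Shadow vertex rules with few auxiliary objectives are exponential, however the auxiliary
objectives are chosen.**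

For all `r, m ≥ 1` there is a linear program `max c x, A x ≤ b, x ≥ 0` with `n = r (m + 1)`
variables and `3 n` rows, with integers `|A i j| ≤ 2 ^ (6 m + 10)`, `|b i| ≤ r 2 ^ (6 m + 10)`,
`|c j| ≤ 2 ^ ((4 m + 8) r)`, with a bounded feasible region, a start vertex `v` and a unique optimal
point `t`, such that for every set `Z` of at most `r` auxiliary objectives (arbitrary real vectors,
which may depend on the linear program), every simplex path from `v` to the optimum all of whose
pivots are shadow vertex pivots for `c` and some element of `Z` has at least `2 ^ m - 2` pivots. -/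
theorem result (r m : ℕ) (hr : 1 ≤ r) (hm : 1 ≤ m) :
    ∃ (A : Fin (3 * (r * (m + 1))) → Fin (r * (m + 1)) → ℤ) (b : Fin (3 * (r * (m + 1))) → ℤ)
      (c : Fin (r * (m + 1)) → ℤ) (v t : Fin (r * (m + 1)) → ℝ),
      (∀ i j, |A i j| ≤ 2 ^ (6 * m + 10)) ∧ (∀ i, |b i| ≤ r * 2 ^ (6 * m + 10)) ∧
      (∀ j, |c j| ≤ 2 ^ ((4 * m + 8) * r)) ∧
      (∀ x ∈ feasible A b, ∀ j, x j ≤ 1) ∧
      v ∈ (feasible A b).extremePoints ℝ ∧
      t ∈ feasible A b ∧
      (∀ x ∈ feasible A b, x ≠ t → val (fun j => (c j : ℝ)) x < val (fun j => (c j : ℝ)) t) ∧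
      ∀ Z : Finset (Fin (r * (m + 1)) → ℝ), Z.card ≤ r →
        ∀ (T : ℕ) (x : ℕ → Fin (r * (m + 1)) → ℝ), x 0 = v →
          (∀ s < T, ∃ z ∈ Z,
            ShadowPivot (feasible A b) (fun j => (c j : ℝ)) z (x s) (x (s + 1))) →
          (∀ y ∈ feasible A b, val (fun j => (c j : ℝ)) y ≤ val (fun j => (c j : ℝ)) (x T)) →
          2 ^ m - 2 ≤ T := by
  obtain ⟨r, rfl⟩ : ∃ r', r = r' + 1 := ⟨r - 1, by omega⟩
  obtain ⟨A, b, c, v, t, h1, h2, h3, h4⟩ := main r m hm
  refine ⟨A, b, c, v, t, h1, ?_, h3, h4⟩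
  intro i
  have := h2 i
  push_cast
  exact this

end Pool.Agent.Results.MP_4d246d_lc.FewAuxiliaryObjectives
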