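import Pool.Agent.Run7.h689.MK9

set_option autoImplicit false

/-!
# Irregularities in the Bateman-Horn formula for systems of polynomials of any degrees

For every `a > 0` there are `κ, δ > 0` such that for every `k ≥ 1` and all degrees `d 1, ..., d k ≥ 1` the formula of
Bateman and Horn fails by the factor `1 + δ`, and also by the factor `1 - δ`, for systems `F = {x ^ d i + u i}` with
`X < u i < 3 X` (for all large `X`; in fact for at least `X ^ (k - ε)` of them), at every `y` with `(log X) ^ a ≤ y ≤ (log X) ^ (a + κ)`; the constant is the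
product over the primes `p ≤ Z`, for any `Z` between `log X` and a fixed power of `log X`; for linear polynomials also
the complete constant `C_F`.

Method: Maier's matrix method with the modulus of H. Maier replaced by the product `W` of a set `P` of primes for which
the integers up to `y` without prime factors in `P` are too many (too few) (`N610/MS`); the shifts `u i` are independent
random multiples of `W`; the mean value of the partial product of the constant is computed by the sieve (Bonferroni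
inequalities for one residue class modulo each prime, `MK1`) and by writing the local densities as averages over
residue classes, for which the shifts separate (`MK4`).
-/

namespace Pool.Agent.Results.MP_51e72e_nt.IrregularSystems

open Finset Filter Topology
open Polynomial (C)
open scoped Polynomial
open Pool.Agent.Run7.h689.MK

/-- `π_F(y)`: the number of the `n`, `1 ≤ n ≤ y`, for which all `|f(n)|`, `f ∈ F`, are primes. -/
def count (F : Finset ℤ[X]) (y : ℕ) : ℕ :=
  ((Icc 1 y).filter (fun n : ℕ => ∀ f ∈ F, (f.eval (n : ℤ)).natAbs.Prime)).card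

/-- `ω_F(p)`: the number of the residues modulo `p` at which the product of the `f ∈ F` is divisible by `p`. -/
def omega (F : Finset ℤ[X]) (p : ℕ) : ℕ :=
  ((range p).filter (fun n : ℕ => (p : ℤ) ∣ ∏ f ∈ F, f.eval (n : ℤ))).card

/-- The product for the constant `C_F` over the primes `p ≤ Z`. -/
noncomputable def product (F : Finset ℤ[X]) (Z : ℕ) : ℝ :=
  ∏ p ∈ (Icc 1 Z).filter Nat.Prime, (1 - (omega F p : ℝ) / p) / (1 - 1 / (p : ℝ)) ^ F.card

/-- The system `{x ^ d i + u i : i}`. -/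
noncomputable def system {k : ℕ} (d u : Fin k → ℕ) : Finset ℤ[X] :=
  univ.image (fun i => (Polynomial.X : ℤ[X]) ^ d i + C (u i : ℤ))

/-- `F` consists of `k` irreducible polynomials with positive leading coefficients, and has no fixed prime divisor. -/
def Admissible (k : ℕ) (F : Finset ℤ[X]) : Prop :=
  F.card = k ∧ (∀ f ∈ F, Irreducible f ∧ 0 < f.natDegree ∧ 0 < f.leadingCoeff) ∧
    ∀ p : ℕ, p.Prime → ∃ n : ℕ, ¬ (p : ℤ) ∣ ∏ f ∈ F, f.eval (n : ℤ)

/-- The prediction `c y / ∏ log f(y)`. -/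
noncomputable def prediction (F : Finset ℤ[X]) (c : ℝ) (y : ℕ) : ℝ :=
  c * y / ∏ f ∈ F, Real.log ((f.eval (y : ℤ) : ℤ) : ℝ)

section
variable {k : ℕ} (d u : Fin k → ℕ)

theorem poly_inj (hd : ∀ i, 1 ≤ d i) (hu : Function.Injective u) :
    Function.Injective (fun i => (Polynomial.X : ℤ[X]) ^ d i + C (u i : ℤ)) := by
  intro i j hij
  have h1 := congrArg (fun f : ℤ[X] => f.eval 0) hij
  simp only [Polynomial.eval_add, Polynomial.eval_pow, Polynomial.eval_X, Polynomial.eval_C] at h1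
  rw [zero_pow (by have := hd i; omega), zero_pow (by have := hd j; omega), zero_add, zero_add] at h1
  exact hu (by exact_mod_cast h1)

theorem poly_eval (i : Fin k) (n : ℕ) :
    ((Polynomial.X : ℤ[X]) ^ d i + C (u i : ℤ)).eval (n : ℤ) = ((u i + n ^ d i : ℕ) : ℤ) := by
  simp; ring

theorem card_system (hd : ∀ i, 1 ≤ d i) (hu : Function.Injective u) : (system d u).card = k := by
  unfold system
  rw [card_image_of_injective _ (poly_inj d u hd hu)]
  simp

theorem prod_system (hd : ∀ i, 1 ≤ d i) (hu : Function.Injective u) (n : ℕ) :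
    ∏ f ∈ system d u, f.eval (n : ℤ) = ∏ i, ((u i + n ^ d i : ℕ) : ℤ) := by
  unfold system
  rw [prod_image fun i _ j _ h => poly_inj d u hd hu h]
  exact prod_congr rfl fun i _ => poly_eval d u i n

theorem dvd_system (hd : ∀ i, 1 ≤ d i) (hu : Function.Injective u) {p : ℕ} (hp : p.Prime) (n : ℕ) :
    (p : ℤ) ∣ ∏ f ∈ system d u, f.eval (n : ℤ) ↔ ∃ i, p ∣ u i + n ^ d i := by
  rw [prod_system d u hd hu, Prime.dvd_finsetProd_iff (Nat.prime_iff_prime_int.1 hp)]
  simp only [mem_univ, true_and, Int.natCast_dvd_natCast]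

theorem loc_omega (hd : ∀ i, 1 ≤ d i) (hu : Function.Injective u) {p : ℕ} (hp : p.Prime) :
    1 - (omega (system d u) p : ℝ) / p = loc d u p := by
  have h1 := card_filter_add_card_filter_not (s := range p) (fun n => ∀ i, ¬ p ∣ u i + n ^ d i)
  rw [card_range] at h1
  have h2 : (range p).filter (fun n => ¬ ∀ i, ¬ p ∣ u i + n ^ d i) =
      (range p).filter (fun n : ℕ => (p : ℤ) ∣ ∏ f ∈ system d u, f.eval (n : ℤ)) := by
    ext n
    rw [mem_filter, mem_filter, dvd_system d u hd hu hp]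
    push Not
    rfl
  rw [h2] at h1
  have hp0 : (p : ℝ) ≠ 0 := by exact_mod_cast hp.ne_zero
  unfold omega loc
  rw [eq_comm, eq_sub_iff_add_eq, ← add_div, div_eq_one_iff_eq hp0]
  exact_mod_cast h1

theorem product_eq (hd : ∀ i, 1 ≤ d i) (hu : Function.Injective u) (Z : ℕ) :
    product (system d u) Z = CZ d u Z := by
  unfold product CZ
  rw [card_system d u hd hu]
  exact prod_congr rfl fun p hp => by rw [loc_omega d u hd hu (mem_filter.1 hp).2]

theorem count_eq (y : ℕ) :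
    count (system d u) y = ((Icc 1 y).filter (fun n : ℕ => ∀ i, (u i + n ^ d i).Prime)).card := by
  unfold count
  congr 1
  ext n
  rw [mem_filter, mem_filter]
  unfold system
  simp only [mem_image, mem_univ, true_and, forall_exists_index, forall_apply_eq_imp_iff, poly_eval, Int.natAbs_natCast]

variable {X : ℝ}

theorem log_mem (hX : 4 ≤ X) (hu : ∀ i, X < u i ∧ (u i : ℝ) < 3 * X) {n : ℕ} (i : Fin k)
    (hn : (n : ℝ) ^ d i ≤ X) :
    Real.log X ≤ Real.log ((u i + n ^ d i : ℕ) : ℝ) ∧ Real.log ((u i + n ^ d i : ℕ) : ℝ) ≤ Real.log X + 2 := by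
  have hX0 : 0 < X := by linarith
  have hn0 : (0 : ℝ) ≤ (n : ℝ) ^ d i := by positivity
  have h1 : X ≤ ((u i + n ^ d i : ℕ) : ℝ) := by
    push_cast
    linarith [(hu i).1]
  have h2 : ((u i + n ^ d i : ℕ) : ℝ) ≤ 4 * X := by
    push_cast
    linarith [(hu i).2]
  refine ⟨Real.log_le_log hX0 h1, ?_⟩
  have h3 := Real.log_le_log (lt_of_lt_of_le hX0 h1) h2
  rw [Real.log_mul (by norm_num) hX0.ne'] at h3
  have h4 : Real.log 4 ≤ 2 := by
    rw [show (4 : ℝ) = 2 ^ 2 by norm_num, Real.log_pow]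
    have := Real.log_two_lt_d9
    push_cast; linarith
  linarith

theorem TT_bounds (hX : 4 ≤ X) (hu : ∀ i, X < u i ∧ (u i : ℝ) < 3 * X) (y : ℕ)
    (hn : ∀ n ∈ Icc 1 y, ∀ i, (n : ℝ) ^ d i ≤ X) :
    Real.log X ^ k * count (system d u) y ≤ TT d y u ∧ TT d y u ≤ (Real.log X + 2) ^ k * count (system d u) y := by
  have hL : 0 < Real.log X := Real.log_pos (by linarith)
  rw [count_eq]
  have hV : ∀ x : ℝ, x * ((Icc 1 y).filter (fun n : ℕ => ∀ i, (u i + n ^ d i).Prime)).card =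
      ∑ n ∈ Icc 1 y, if (∀ i, (u i + n ^ d i).Prime) then x else 0 := by
    intro x
    rw [← sum_filter, sum_const, nsmul_eq_mul, mul_comm]
  rw [hV, hV]
  unfold TT
  constructor
  · refine sum_le_sum fun n hn' => ?_
    split_ifs with hp
    · calc Real.log X ^ k = ∏ _i : Fin k, Real.log X := by simp
        _ ≤ _ := by
          apply Finset.prod_le_prod
          · intro i _; exact hL.le
          · intro i _
            unfold Pool.Agent.H378R2.th
            rw [if_pos (hp i)]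
            exact (log_mem d u hX hu i (hn n hn' i)).1
    · exact prod_nonneg fun i _ => th_nonneg _
  · refine sum_le_sum fun n hn' => ?_
    split_ifs with hp
    · calc _ ≤ ∏ _i : Fin k, (Real.log X + 2) := by
            apply Finset.prod_le_prod
            · intro i _; exact th_nonneg _
            · intro i _
              unfold Pool.Agent.H378R2.th
              rw [if_pos (hp i)]
              exact (log_mem d u hX hu i (hn n hn' i)).2
        _ = _ := by simp
    · push Not at hp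
      obtain ⟨i, hi⟩ := hp
      rw [prod_eq_zero (mem_univ i)]
      unfold Pool.Agent.H378R2.th
      rw [if_neg hi]

theorem log_prod (hX : 4 ≤ X) (hd : ∀ i, 1 ≤ d i) (huinj : Function.Injective u)
    (hu : ∀ i, X < u i ∧ (u i : ℝ) < 3 * X) (y : ℕ) (hn : ∀ i, (y : ℝ) ^ d i ≤ X) :
    Real.log X ^ k ≤ ∏ f ∈ system d u, Real.log ((f.eval (y : ℤ) : ℤ) : ℝ) ∧
      ∏ f ∈ system d u, Real.log ((f.eval (y : ℤ) : ℤ) : ℝ) ≤ (Real.log X + 2) ^ k := by
  have hL : 0 < Real.log X := Real.log_pos (by linarith)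
  have e1 : ∏ f ∈ system d u, Real.log ((f.eval (y : ℤ) : ℤ) : ℝ) = ∏ i, Real.log ((u i + y ^ d i : ℕ) : ℝ) := by
    unfold system
    rw [prod_image fun i _ j _ h => poly_inj d u hd huinj h]
    exact prod_congr rfl fun i _ => by rw [poly_eval]; norm_cast
  rw [e1]
  have hm := fun i => log_mem d u hX hu i (hn i)
  constructor
  · calc Real.log X ^ k = ∏ _i : Fin k, Real.log X := by simp
      _ ≤ _ := Finset.prod_le_prod (fun i _ => hL.le) fun i _ => (hm i).1
  · calc _ ≤ ∏ _i : Fin k, (Real.log X + 2) := Finset.prod_le_prod (fun i _ => hL.le.trans (hm i).1) fun i _ => (hm i).2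
      _ = _ := by simp

/-- few roots modulo large primes -/
theorem roots_le {p : ℕ} (hp : p.Prime) (e v : ℕ) (he : 1 ≤ e) :
    ((range p).filter (fun n => p ∣ v + n ^ e)).card ≤ e := by
  have : Fact p.Prime := ⟨hp⟩
  set f : (ZMod p)[X] := Polynomial.X ^ e + C (v : ZMod p) with hf
  have hdeg : f.natDegree = e := Polynomial.natDegree_X_pow_add_C
  have hf0 : f ≠ 0 := by
    intro h
    rw [h, Polynomial.natDegree_zero] at hdeg
    omega
  have h1 : ((range p).filter (fun n => p ∣ v + n ^ e)).card ≤ f.roots.toFinset.card := by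
    apply card_le_card_of_injOn (fun n : ℕ => (n : ZMod p))
    · intro n hn
      rw [mem_coe, mem_filter] at hn
      rw [mem_coe, Multiset.mem_toFinset, Polynomial.mem_roots hf0, Polynomial.IsRoot.def]
      have h2 : ((v + n ^ e : ℕ) : ZMod p) = 0 := (ZMod.natCast_eq_zero_iff _ _).2 hn.2
      rw [hf]
      simp only [Polynomial.eval_add, Polynomial.eval_pow, Polynomial.eval_X, Polynomial.eval_C]
      push_cast at h2
      rw [add_comm]; exact h2
    · intro n hn m hm hnm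
      rw [mem_coe, mem_filter, mem_range] at hn hm
      have h2 := (ZMod.natCast_eq_natCast_iff' n m p).1 hnm
      rwa [Nat.mod_eq_of_lt hn.1, Nat.mod_eq_of_lt hm.1] at h2
  refine h1.trans ((Multiset.toFinset_card_le _).trans ?_)
  rw [← hdeg]
  exact Polynomial.card_roots' f

theorem irr_of_eis (e v : ℕ) (he : 1 ≤ e) (h : ∃ p : ℕ, p.Prime ∧ p ∣ v ∧ ¬ p ^ 2 ∣ v) :
    Irreducible ((Polynomial.X : ℤ[X]) ^ e + C (v : ℤ)) := by
  obtain ⟨p, hp, h1, h2⟩ := h
  have hpI : Prime (p : ℤ) := Nat.prime_iff_prime_int.1 hp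
  have hmonic : ((Polynomial.X : ℤ[X]) ^ e + C (v : ℤ)).Monic := Polynomial.monic_X_pow_add_C _ (by omega)
  apply Polynomial.irreducible_of_eisenstein_criterion (P := Ideal.span {(p : ℤ)})
  · exact (Ideal.span_singleton_prime hpI.ne_zero).2 hpI
  · rw [hmonic.leadingCoeff, Ideal.mem_span_singleton]
    intro hd
    exact hpI.not_isUnit (isUnit_of_dvd_one hd)
  · intro n hn
    rw [Polynomial.degree_X_pow_add_C (by omega)] at hn
    have hn' : n < e := by exact_mod_cast hn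
    rw [Polynomial.coeff_add, Polynomial.coeff_X_pow, if_neg (by omega), zero_add, Polynomial.coeff_C,
      Ideal.mem_span_singleton]
    split_ifs
    · exact_mod_cast h1
    · exact dvd_zero _
  · rw [Polynomial.degree_X_pow_add_C (by omega)]
    exact_mod_cast he
  · rw [Polynomial.coeff_add, Polynomial.coeff_X_pow, if_neg (by omega), zero_add, Polynomial.coeff_C, if_pos rfl,
      Ideal.span_singleton_pow, Ideal.mem_span_singleton]
    intro hd
    exact h2 (by exact_mod_cast hd)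
  · exact hmonic.isPrimitive

theorem admissible_of (hd : ∀ i, 1 ≤ d i) (h : Adm X u) (Z : ℕ) (hZ : ∑ i, d i < Z) (hC : 0 < CZ d u Z) :
    Admissible k (system d u) := by
  obtain ⟨h1, hinj, h3⟩ := h
  refine ⟨card_system d u hd hinj, ?_, ?_⟩
  · intro f hf
    unfold system at hf
    rw [mem_image] at hf
    obtain ⟨i, -, rfl⟩ := hf
    refine ⟨irr_of_eis _ _ (hd i) (h3 i), ?_, ?_⟩
    · rw [Polynomial.natDegree_X_pow_add_C]; exact hd i
    · rw [(Polynomial.monic_X_pow_add_C _ (by have := hd i; omega)).leadingCoeff]; norm_num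
  · intro p hp
    have hpos : ∃ n, ∀ i, ¬ p ∣ u i + n ^ d i := by
      rcases le_or_gt p Z with hpZ | hpZ
      · have h4 : loc d u p / (1 - 1 / (p : ℝ)) ^ k ≠ 0 := by
          intro h5
          have : CZ d u Z = 0 := prod_eq_zero (i := p) (by
            rw [mem_filter, mem_Icc]; exact ⟨⟨hp.one_le, hpZ⟩, hp⟩) h5
          linarith
        have h5 : loc d u p ≠ 0 := fun h5 => h4 (by rw [h5, zero_div])
        unfold loc at h5
        have h6 : ((range p).filter (fun n => ∀ i, ¬ p ∣ u i + n ^ d i)).card ≠ 0 := by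
          intro h6
          rw [h6] at h5
          simp at h5
        obtain ⟨n, hn⟩ := card_pos.1 (Nat.pos_of_ne_zero h6)
        exact ⟨n, (mem_filter.1 hn).2⟩
      · by_contra hcon
        push Not at hcon
        have h4 : range p ⊆ univ.biUnion (fun i => (range p).filter (fun n => p ∣ u i + n ^ d i)) := by
          intro n hn
          obtain ⟨i, hi⟩ := hcon n
          rw [mem_biUnion]
          exact ⟨i, mem_univ _, mem_filter.2 ⟨hn, hi⟩⟩
        have h5 : p ≤ ∑ i, d i := by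
          calc p = (range p).card := (card_range p).symm
            _ ≤ _ := card_le_card h4
            _ ≤ ∑ i, ((range p).filter (fun n => p ∣ u i + n ^ d i)).card := card_biUnion_le
            _ ≤ ∑ i, d i := sum_le_sum fun i _ => roots_le hp _ _ (hd i)
        omega
    obtain ⟨n, hn⟩ := hpos
    refine ⟨n, ?_⟩
    rw [dvd_system d u hd hinj hp]
    push Not
    exact hn

end

theorem ev_small {k : ℕ} (d : Fin k → ℕ) (a' : ℝ) : ∀ᶠ X : ℝ in atTop, ∀ y : ℕ, (y : ℝ) ≤ Real.log X ^ a' →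
    ∀ n ∈ Icc 1 y, ∀ i, (n : ℝ) ^ d i ≤ X := by
  obtain ⟨A, hA⟩ := exists_nat_ge (a' * (∑ i, d i : ℕ))
  filter_upwards [Real.tendsto_log_atTop.eventually (ev_exp 1 A), Real.tendsto_log_atTop.eventually_ge_atTop 1,
    eventually_ge_atTop (1 : ℝ)] with X h1 h2 h3 y hy n hn i
  have hX0 : 0 < X := by linarith
  have hL0 : 0 < Real.log X := by linarith
  rw [mem_Icc] at hn
  have hy1 : (1 : ℝ) ≤ y := by exact_mod_cast hn.1.trans hn.2
  calc (n : ℝ) ^ d i ≤ (y : ℝ) ^ d i := pow_le_pow_left₀ (Nat.cast_nonneg _) (by exact_mod_cast hn.2) _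
    _ ≤ (y : ℝ) ^ (∑ i, d i) := pow_le_pow_right₀ hy1
        (single_le_sum (f := d) (fun _ _ => Nat.zero_le _) (mem_univ i))
    _ ≤ (Real.log X ^ a') ^ (∑ i, d i) := pow_le_pow_left₀ (by linarith) hy _
    _ = Real.log X ^ (a' * (∑ i, d i : ℕ)) := by rw [← Real.rpow_natCast, ← Real.rpow_mul hL0.le]
    _ ≤ Real.log X ^ (A : ℝ) := Real.rpow_le_rpow_of_exponent_le h2 hA
    _ = Real.log X ^ A := Real.rpow_natCast _ _
    _ ≤ Real.exp (Real.log X / 2) := by rw [one_mul] at h1; exact h1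
    _ ≤ Real.exp (Real.log X) := Real.exp_le_exp.2 (by linarith)
    _ = X := Real.exp_log hX0

/-- There are at least `X ^ (k - ε)` systems `F = {x ^ d i + u i}`, `X < u i < 3 X`, to which the conjecture applies, and
whose values up to `y` are all primes too often: at least `1 + δ` times as often as predicted, with a constant `C`
satisfying `c F C`. -/
def TooMany (X ε : ℝ) {k : ℕ} (d : Fin k → ℕ) (δ : ℝ) (y : ℕ) (c : Finset ℤ[X] → ℝ → Prop) : Prop :=
  ∃ U : Finset (Fin k → ℕ), X ^ ((k : ℝ) - ε) ≤ U.card ∧ ∀ u ∈ U,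
    (∀ i, X < u i ∧ (u i : ℝ) < 3 * X) ∧ Admissible k (system d u) ∧
    ∃ C : ℝ, c (system d u) C ∧ 0 < C ∧ (1 + δ) * prediction (system d u) C y ≤ count (system d u) y

/-- There are at least `X ^ (k - ε)` systems `F = {x ^ d i + u i}`, `X < u i < 3 X`, to which the conjecture applies, and
whose values up to `y` are all primes too rarely: at most `1 - δ` times as often as predicted, with a constant `C`
satisfying `c F C`. -/
def TooFew (X ε : ℝ) {k : ℕ} (d : Fin k → ℕ) (δ : ℝ) (y : ℕ) (c : Finset ℤ[X] → ℝ → Prop) : Prop :=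
  ∃ U : Finset (Fin k → ℕ), X ^ ((k : ℝ) - ε) ≤ U.card ∧ ∀ u ∈ U,
    (∀ i, X < u i ∧ (u i : ℝ) < 3 * X) ∧ Admissible k (system d u) ∧
    ∃ C : ℝ, c (system d u) C ∧ 0 < C ∧ (count (system d u) y : ℝ) ≤ (1 - δ) * prediction (system d u) C y

/-- `C` is the product over the primes `p ≤ Z`. -/
def IsPartial (Z : ℕ) (F : Finset ℤ[X]) (C : ℝ) : Prop := C = product F Z

/-- `C` is the complete constant `C_F`. -/
def IsConstant (F : Finset ℤ[X]) (C : ℝ) : Prop := Tendsto (product F) atTop (𝓝 C)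

section
variable {k : ℕ} {d u : Fin k → ℕ} {X : ℝ}

theorem pred_bounds (hX : 4 ≤ X) (hd : ∀ i, 1 ≤ d i) (hu : Adm X u) {y : ℕ} (hn : ∀ i, (y : ℝ) ^ d i ≤ X)
    {c : ℝ} (hc : 0 ≤ c) :
    c * y / (Real.log X + 2) ^ k ≤ prediction (system d u) c y ∧
      prediction (system d u) c y ≤ c * y / Real.log X ^ k := by
  have hL : 0 < Real.log X := Real.log_pos (by linarith)
  obtain ⟨h1, h2⟩ := log_prod d u hX hd hu.2.1 hu.1 y hn
  have h3 : 0 < Real.log X ^ k := pow_pos hL k
  unfold prediction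
  exact ⟨div_le_div_of_nonneg_left (by positivity) (lt_of_lt_of_le h3 h1) h2,
    div_le_div_of_nonneg_left (by positivity) h3 h1⟩

theorem many_of (hX : 4 ≤ X) (hd : ∀ i, 1 ≤ d i) (hu : Adm X u) {y : ℕ} (hy : 1 ≤ y)
    (hn : ∀ n ∈ Icc 1 y, ∀ i, (n : ℝ) ^ d i ≤ X) {c δ : ℝ} (hc : 0 ≤ c) (hδ : 0 ≤ δ)
    (h : (1 + δ) * c * y / Real.log X ^ k ≤ TT d y u / (Real.log X + 2) ^ k) :
    (1 + δ) * prediction (system d u) c y ≤ count (system d u) y := by
  have hL : 0 < Real.log X := Real.log_pos (by linarith)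
  have h1 := (pred_bounds hX hd hu (fun i => hn y (mem_Icc.2 ⟨hy, le_rfl⟩) i) hc).2
  have h2 := (TT_bounds d u hX hu.1 y hn).2
  have h3 : TT d y u / (Real.log X + 2) ^ k ≤ count (system d u) y := by
    rw [div_le_iff₀ (by positivity)]; linarith
  calc (1 + δ) * prediction (system d u) c y ≤ (1 + δ) * (c * y / Real.log X ^ k) :=
        mul_le_mul_of_nonneg_left h1 (by linarith)
    _ = (1 + δ) * c * y / Real.log X ^ k := by ring
    _ ≤ _ := h.trans h3

theorem few_of (hX : 4 ≤ X) (hd : ∀ i, 1 ≤ d i) (hu : Adm X u) {y : ℕ} (hy : 1 ≤ y)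
    (hn : ∀ n ∈ Icc 1 y, ∀ i, (n : ℝ) ^ d i ≤ X) {c δ : ℝ} (hc : 0 ≤ c) (hδ : δ ≤ 1)
    (h : TT d y u / Real.log X ^ k ≤ (1 - δ) * c * y / (Real.log X + 2) ^ k) :
    (count (system d u) y : ℝ) ≤ (1 - δ) * prediction (system d u) c y := by
  have hL : 0 < Real.log X := Real.log_pos (by linarith)
  have h1 := (pred_bounds hX hd hu (fun i => hn y (mem_Icc.2 ⟨hy, le_rfl⟩) i) hc).1
  have h2 := (TT_bounds d u hX hu.1 y hn).1
  have h3 : (count (system d u) y : ℝ) ≤ TT d y u / Real.log X ^ k := by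
    rw [le_div_iff₀ (by positivity)]; linarith
  calc (count (system d u) y : ℝ) ≤ (1 - δ) * c * y / (Real.log X + 2) ^ k := h3.trans h
    _ = (1 - δ) * (c * y / (Real.log X + 2) ^ k) := by ring
    _ ≤ _ := mul_le_mul_of_nonneg_left h1 (by linarith)

theorem CZ_pos_of_TT (hu : ∀ i, X < u i) {y Z : ℕ} (hZ : (Z : ℝ) ≤ X) (h : 0 < TT d y u) : 0 < CZ d u Z := by
  unfold TT at h
  obtain ⟨n, hn, hpos⟩ : ∃ n ∈ Icc 1 y, 0 < ∏ i, Pool.Agent.H378R2.th (u i + n ^ d i) := by
    by_contra hcon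
    push Not at hcon
    have := sum_nonpos hcon
    linarith
  have hprime : ∀ i, (u i + n ^ d i).Prime := by
    intro i
    by_contra hi
    rw [prod_eq_zero (mem_univ i)] at hpos
    · exact lt_irrefl _ hpos
    · unfold Pool.Agent.H378R2.th
      rw [if_neg hi]
  unfold CZ
  refine prod_pos fun p hp => div_pos ?_ (pow_pos ?_ _)
  · rw [mem_filter, mem_Icc] at hp
    unfold loc
    refine div_pos ?_ (by exact_mod_cast hp.2.pos)
    have : 0 < ((range p).filter (fun n => ∀ i, ¬ p ∣ u i + n ^ d i)).card := by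
      apply card_pos.2
      refine ⟨n % p, mem_filter.2 ⟨mem_range.2 (Nat.mod_lt _ hp.2.pos), fun i hi => ?_⟩⟩
      have h1 : u i + n ^ d i ≡ u i + (n % p) ^ d i [MOD p] :=
        Nat.ModEq.add_left _ ((Nat.mod_modEq n p).symm.pow _)
      have h2 : p ∣ u i + n ^ d i := (Nat.modEq_zero_iff_dvd).1 (h1.trans ((Nat.modEq_zero_iff_dvd).2 hi))
      have h3 := (Nat.prime_dvd_prime_iff_eq hp.2 (hprime i)).1 h2
      have h4 : (p : ℝ) ≤ Z := by exact_mod_cast hp.1.2
      have h5 : (p : ℝ) = ((u i + n ^ d i : ℕ) : ℝ) := by exact_mod_cast h3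
      have h6 : (0 : ℝ) ≤ (n : ℝ) ^ d i := by positivity
      push_cast at h5
      linarith [hu i]
    exact_mod_cast this
  · linarith [(one_sub_mem (mem_filter.1 hp).2).1]

end

/-- the choice of the parameters -/
theorem exists_par (a : ℝ) (ha : 0 < a) : ∃ κ δ : ℝ, 0 < κ ∧ 0 < δ ∧ δ ≤ 1 ∧
    ∀ (k : ℕ), 1 ≤ k → ∀ d : Fin k → ℕ, (∀ i, 1 ≤ d i) → ∀ (B : ℕ) (ε : ℝ), 0 < ε → ∀ᶠ X : ℝ in atTop, ∀ y Z : ℕ,
      Real.log X ^ a ≤ y → (y : ℝ) ≤ Real.log X ^ (a + κ) → Real.log X ≤ Z → (Z : ℝ) ≤ Real.log X ^ B →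
      (∃ U : Finset (Fin k → ℕ), X ^ ((k : ℝ) - ε) ≤ U.card ∧ ∀ u ∈ U, Adm X u ∧ 0 < CZ d u Z ∧
        (1 + δ) * CZ d u Z * y / Real.log X ^ k < TT d y u / (Real.log X + 2) ^ k) ∧
      (∃ U : Finset (Fin k → ℕ), X ^ ((k : ℝ) - ε) ≤ U.card ∧ ∀ u ∈ U, Adm X u ∧ 0 < CZ d u Z ∧
        TT d y u / Real.log X ^ k < (1 - δ) * CZ d u Z * y / (Real.log X + 2) ^ k) := by
  obtain ⟨κ, hκ, h⟩ := Pool.Agent.N610.MS.t_CNT Pool.Agent.N610.MS.t_BON
    (Pool.Agent.N610.MS.LEG.main Pool.Agent.N610.MS.t_BON) a 1 ha one_pos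
  obtain ⟨δ₁, h1, h2, h3⟩ := h 1 1 one_pos (Or.inl rfl)
  obtain ⟨δ₂, h4, h5, h6⟩ := h 1 (-1) one_pos (Or.inr rfl)
  refine ⟨κ, min δ₁ δ₂, hκ, lt_min h1 h4, (min_le_left _ _).trans h2, fun k hk d hd B ε hε => ?_⟩
  have g1 := upper hk d hd a κ δ₁ ha hκ h1 (by
    intro ε' hε'
    filter_upwards [h3 ε' hε'] with X hX S ps hS
    obtain ⟨P, q1, q2, q3, q4, -⟩ := hX S ps hS
    exact ⟨P, q1, q2, q3, fun y hy1 hy2 => by
      have := q4 y hy1 hy2
      rwa [one_mul] at this⟩) B ε hε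
  have g2 := lower hk d hd a κ δ₂ ha hκ h4 h5 (by
    intro ε' hε'
    filter_upwards [h6 ε' hε'] with X hX S ps hS
    obtain ⟨P, q1, q2, q3, q4, -⟩ := hX S ps hS
    exact ⟨P, q1, q2, q3, fun y hy1 hy2 => by
      have := q4 y hy1 hy2
      rwa [neg_one_mul] at this⟩) B ε hε
  filter_upwards [g1, g2, Real.tendsto_log_atTop.eventually (ev_exp 1 B), eventually_ge_atTop (4 : ℝ)]
    with X k1 k2 k3 k4 y Z hy1 hy2 hZ1 hZ2
  have hX0 : 0 < X := by linarith
  have hL0 : 0 < Real.log X := Real.log_pos (by linarith)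
  have hZX : (Z : ℝ) ≤ X := by
    refine hZ2.trans ?_
    rw [one_mul] at k3
    refine k3.trans ?_
    calc Real.exp (Real.log X / 2) ≤ Real.exp (Real.log X) := Real.exp_le_exp.2 (by linarith)
      _ = X := Real.exp_log hX0
  obtain ⟨U, hU, hU2⟩ := k1 y Z hy1 hy2 hZ1 hZ2
  obtain ⟨U', hU', hU'2⟩ := k2 y Z hy1 hy2 hZ1 hZ2
  have hy0 : (0 : ℝ) < y := lt_of_lt_of_le (Real.rpow_pos_of_pos hL0 a) hy1
  constructor
  · refine ⟨U, hU, fun u hu => ?_⟩
    obtain ⟨v1, v2⟩ := hU2 u hu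
    have hCZ := CZ_nonneg d u Z
    refine ⟨v1, ?_, ?_⟩
    · apply CZ_pos_of_TT (fun i => (v1.1 i).1) hZX
      have h7 : 0 ≤ (1 + δ₁) * CZ d u Z * y / Real.log X ^ k := by positivity
      by_contra hcon
      push Not at hcon
      have h8 : TT d y u / (Real.log X + 2) ^ k ≤ 0 := div_nonpos_of_nonpos_of_nonneg hcon (by positivity)
      linarith
    · refine lt_of_le_of_lt ?_ v2
      have h7 : min δ₁ δ₂ ≤ δ₁ := min_le_left _ _
      gcongr
  · refine ⟨U', hU', fun u' hu' => ?_⟩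
    obtain ⟨w1, w2⟩ := hU'2 u' hu'
    have hCZ := CZ_nonneg d u' Z
    have hT0 := TT_nonneg d y u'
    have h7 : 0 ≤ TT d y u' / Real.log X ^ k := by positivity
    refine ⟨w1, ?_, ?_⟩
    · by_contra hcon
      have h8 : CZ d u' Z = 0 := le_antisymm (not_lt.1 hcon) hCZ
      rw [h8, mul_zero, zero_mul, zero_div] at w2
      linarith
    · refine lt_of_lt_of_le w2 ?_
      have h7 : min δ₁ δ₂ ≤ δ₂ := min_le_right _ _
      gcongr

/-- **Irregularities in the formula of Bateman and Horn for systems.** -/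
theorem result (a : ℝ) (ha : 0 < a) : ∃ κ δ : ℝ, 0 < κ ∧ 0 < δ ∧
    ∀ (k : ℕ), 1 ≤ k → ∀ d : Fin k → ℕ, (∀ i, 1 ≤ d i) → ∀ ε : ℝ, 0 < ε →
      (∀ B : ℕ, ∃ X₀ : ℝ, ∀ X : ℝ, X₀ ≤ X → ∀ y Z : ℕ,
        Real.log X ^ a ≤ y → (y : ℝ) ≤ Real.log X ^ (a + κ) → Real.log X ≤ Z → (Z : ℝ) ≤ Real.log X ^ B →
        TooMany X ε d δ y (IsPartial Z) ∧ TooFew X ε d δ y (IsPartial Z)) ∧
      ((∀ i, d i = 1) → ∃ X₀ : ℝ, ∀ X : ℝ, X₀ ≤ X → ∀ y : ℕ,
        Real.log X ^ a ≤ y → (y : ℝ) ≤ Real.log X ^ (a + κ) →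
        TooMany X ε d δ y IsConstant ∧ TooFew X ε d δ y IsConstant) := by
  obtain ⟨κ, δ, hκ, hδ, hδ1, h⟩ := exists_par a ha
  refine ⟨κ, δ / 2, hκ, by linarith, fun k hk d hd ε hε => ⟨fun B => ?_, fun hd1 => ?_⟩⟩
  · obtain ⟨X₀, hX₀⟩ := eventually_atTop.1 ((h k hk d hd B ε hε).and ((ev_small d (a + κ)).and
      ((Real.tendsto_log_atTop.eventually_gt_atTop ((∑ i, d i : ℕ) : ℝ)).and (eventually_ge_atTop (4 : ℝ)))))
    refine ⟨X₀, fun X hX y Z hy1 hy2 hZ1 hZ2 => ?_⟩
    obtain ⟨h1, h2, h3, h4⟩ := hX₀ X hX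
    obtain ⟨⟨U, hU, hU2⟩, ⟨U', hU', hU'2⟩⟩ := h1 y Z hy1 hy2 hZ1 hZ2
    have hL0 : 0 < Real.log X := Real.log_pos (by linarith)
    have hy0 : (0 : ℝ) < y := lt_of_lt_of_le (Real.rpow_pos_of_pos hL0 a) hy1
    have hy1' : 1 ≤ y := by exact_mod_cast hy0
    have hZ : ∑ i, d i < Z := by
      have : ((∑ i, d i : ℕ) : ℝ) < Z := lt_of_lt_of_le h3 hZ1
      exact_mod_cast this
    have hs := h2 y hy2
    constructor
    · refine ⟨U, hU, fun u hu => ?_⟩
      obtain ⟨v1, v2, v3⟩ := hU2 u hu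
      refine ⟨v1.1, admissible_of d u hd v1 Z hZ v2, CZ d u Z, (product_eq d u hd v1.2.1 Z).symm, v2, ?_⟩
      refine many_of h4 hd v1 hy1' hs v2.le (by linarith) (le_trans ?_ v3.le)
      gcongr
      linarith
    · refine ⟨U', hU', fun u' hu' => ?_⟩
      obtain ⟨w1, w2, w3⟩ := hU'2 u' hu'
      refine ⟨w1.1, admissible_of d u' hd w1 Z hZ w2, CZ d u' Z, (product_eq d u' hd w1.2.1 Z).symm, w2, ?_⟩
      refine few_of h4 hd w1 hy1' hs w2.le (by linarith) (w3.le.trans ?_)
      gcongr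
      linarith
  · obtain rfl : d = fun _ => 1 := funext hd1
    obtain ⟨X₀, hX₀⟩ := eventually_atTop.1 ((h k hk _ hd 3 ε hε).and ((ev_small (fun _ : Fin k => 1) (a + κ)).and
      ((Real.tendsto_log_atTop.eventually_gt_atTop ((∑ _i : Fin k, 1 : ℕ) : ℝ)).and
        ((eventually_ge_atTop (4 : ℝ)).and ((lin_limit k hk (δ / 4) (by linarith)).and
          (Real.tendsto_log_atTop.eventually_ge_atTop 2))))))
    refine ⟨X₀, fun X hX y hy1 hy2 => ?_⟩
    obtain ⟨h1, h2, h3, h4, h5, h6⟩ := hX₀ X hX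
    have hL0 : 0 < Real.log X := by linarith
    obtain ⟨Z, hZd⟩ : ∃ Z : ℕ, Z = ⌈Real.log X ^ 2⌉₊ := ⟨_, rfl⟩
    have hZ2 : Real.log X ^ 2 ≤ Z := by rw [hZd]; exact Nat.le_ceil _
    have hZ1 : Real.log X ≤ Z := by nlinarith
    have hZ3 : (Z : ℝ) ≤ Real.log X ^ 3 := by
      have := Nat.ceil_lt_add_one (show 0 ≤ Real.log X ^ 2 by positivity)
      rw [← hZd] at this
      have g1 : Real.log X ^ 2 + 1 ≤ Real.log X ^ 3 := by
        have e1 : Real.log X ^ 3 = Real.log X ^ 2 * Real.log X := by ring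
        rw [e1]
        have g2 : 4 ≤ Real.log X ^ 2 := by nlinarith
        nlinarith
      linarith
    obtain ⟨⟨U, hU, hU2⟩, ⟨U', hU', hU'2⟩⟩ := h1 y Z hy1 hy2 hZ1 hZ3
    have hy0 : (0 : ℝ) < y := lt_of_lt_of_le (Real.rpow_pos_of_pos hL0 a) hy1
    have hy1' : 1 ≤ y := by exact_mod_cast hy0
    have hZ : ∑ _i : Fin k, 1 < Z := by
      have : ((∑ _i : Fin k, 1 : ℕ) : ℝ) < Z := lt_of_lt_of_le h3 hZ1
      exact_mod_cast this
    have hs := h2 y hy2
    have hpe : ∀ v : Fin k → ℕ, Function.Injective v →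
        product (system (fun _ => 1) v) = fun N => CZ (fun _ => 1) v N := by
      intro v hv
      funext N
      exact product_eq _ _ (fun _ => le_rfl) hv N
    constructor
    · refine ⟨U, hU, fun u hu => ?_⟩
      obtain ⟨v1, v2, v3⟩ := hU2 u hu
      obtain ⟨c, c1, c2, c3⟩ := h5 u v1.2.1 v1.1 Z hZ2
      have hc0 : 0 < c := lt_of_lt_of_le (mul_pos (by linarith) v2) c2
      refine ⟨v1.1, admissible_of _ u hd v1 Z hZ v2, c, ?_, hc0, ?_⟩
      · unfold IsConstant
        rw [hpe u v1.2.1]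
        exact c1
      · refine many_of h4 hd v1 hy1' hs hc0.le (by linarith) (le_trans ?_ v3.le)
        have g1 : (1 + δ / 2) * c ≤ (1 + δ) * CZ (fun _ => 1) u Z := by
          calc (1 + δ / 2) * c ≤ (1 + δ / 2) * ((1 + δ / 4) * CZ (fun _ => 1) u Z) :=
                mul_le_mul_of_nonneg_left c3 (by linarith)
            _ = ((1 + δ / 2) * (1 + δ / 4)) * CZ (fun _ => 1) u Z := by ring
            _ ≤ _ := mul_le_mul_of_nonneg_right (by nlinarith) v2.le
        gcongr
    · refine ⟨U', hU', fun u' hu' => ?_⟩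
      obtain ⟨w1, w2, w3⟩ := hU'2 u' hu'
      obtain ⟨c, c1, c2, c3⟩ := h5 u' w1.2.1 w1.1 Z hZ2
      have hc0 : 0 < c := lt_of_lt_of_le (mul_pos (by linarith) w2) c2
      refine ⟨w1.1, admissible_of _ u' hd w1 Z hZ w2, c, ?_, hc0, ?_⟩
      · unfold IsConstant
        rw [hpe u' w1.2.1]
        exact c1
      · refine few_of h4 hd w1 hy1' hs hc0.le (by linarith) (w3.le.trans ?_)
        have g1 : (1 - δ) * CZ (fun _ => 1) u' Z ≤ (1 - δ / 2) * c := by
          calc (1 - δ) * CZ (fun _ => 1) u' Z ≤ ((1 - δ / 2) * (1 - δ / 4)) * CZ (fun _ => 1) u' Z :=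
                mul_le_mul_of_nonneg_right (by nlinarith) w2.le
            _ = (1 - δ / 2) * ((1 - δ / 4) * CZ (fun _ => 1) u' Z) := by ring
            _ ≤ _ := mul_le_mul_of_nonneg_left c2 (by linarith)
        gcongr

end Pool.Agent.Results.MP_51e72e_nt.IrregularSystems
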